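import Mathlib

/-!
# A separable permutation class containing `Av(231)` with a rational generating function: the class

Permutations are treated as lists of distinct natural numbers up to order isomorphism.
-/

set_option autoImplicit false

namespace Pool.Agent.Helper585RC

open List

/-- all entries of `l` are below all entries of `r` -/
def Lt (l r : List ℕ) : Prop := ∀ a ∈ l, ∀ b ∈ r, a < b

theorem Lt.nil_left (r : List ℕ) : Lt [] r := fun _ h => absurd h (by simp)

theorem Lt.nil_right (l : List ℕ) : Lt l [] := fun _ _ _ h => absurd h (by simp)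

theorem Lt.mono {l r l' r' : List ℕ} (h : Lt l r) (hl : l' ⊆ l) (hr : r' ⊆ r) : Lt l' r' :=
  fun a ha b hb => h a (hl ha) b (hr hb)

theorem Lt.sub {l r l' r' : List ℕ} (h : Lt l r) (hl : l' <+ l) (hr : r' <+ r) : Lt l' r' :=
  h.mono hl.subset hr.subset

theorem lt_append_left {l1 l2 r : List ℕ} : Lt (l1 ++ l2) r ↔ Lt l1 r ∧ Lt l2 r := by
  constructor
  · intro h
    exact ⟨h.mono (by simp) (by simp), h.mono (by simp) (by simp)⟩
  · rintro ⟨h1, h2⟩ a ha b hb
    rcases List.mem_append.1 ha with h | h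
    · exact h1 a h b hb
    · exact h2 a h b hb

theorem lt_append_right {l r1 r2 : List ℕ} : Lt l (r1 ++ r2) ↔ Lt l r1 ∧ Lt l r2 := by
  constructor
  · intro h
    exact ⟨h.mono (by simp) (by simp), h.mono (by simp) (by simp)⟩
  · rintro ⟨h1, h2⟩ a ha b hb
    rcases List.mem_append.1 hb with h | h
    · exact h1 a ha b h
    · exact h2 a ha b h

theorem sub3_append {a b c : ℕ} {l r : List ℕ} (h : [a, b, c] <+ l ++ r) :
    [a, b, c] <+ l ∨ ([a, b] <+ l ∧ c ∈ r) ∨ (a ∈ l ∧ [b, c] <+ r) ∨ [a, b, c] <+ r := by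
  obtain ⟨s1, s2, h1, h2, h3⟩ := List.sublist_append_iff.1 h
  rcases s1 with _ | ⟨x, _ | ⟨y, _ | ⟨z, s⟩⟩⟩
  · right; right; right
    rw [List.nil_append] at h1
    rw [h1]; exact h3
  · right; right; left
    simp only [List.cons_append, List.nil_append, List.cons.injEq] at h1
    obtain ⟨rfl, rfl⟩ := h1
    exact ⟨by simpa using h2, h3⟩
  · right; left
    simp only [List.cons_append, List.nil_append, List.cons.injEq] at h1
    obtain ⟨rfl, rfl, rfl⟩ := h1
    exact ⟨h2, by simpa using h3⟩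
  · left
    simp only [List.cons_append, List.cons.injEq] at h1
    obtain ⟨rfl, rfl, rfl, h4⟩ := h1
    have h5 : s = [] := by
      rcases s with _ | _
      · rfl
      · simp at h4
    rw [h5] at h2
    exact h2

theorem sub4_append {a b c d : ℕ} {l r : List ℕ} (h : [a, b, c, d] <+ l ++ r) :
    [a, b, c, d] <+ l ∨ ([a, b, c] <+ l ∧ d ∈ r) ∨ ([a, b] <+ l ∧ [c, d] <+ r) ∨
      (a ∈ l ∧ [b, c, d] <+ r) ∨ [a, b, c, d] <+ r := by
  obtain ⟨s1, s2, h1, h2, h3⟩ := List.sublist_append_iff.1 h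
  rcases s1 with _ | ⟨x, _ | ⟨y, _ | ⟨z, _ | ⟨w, s⟩⟩⟩⟩
  · right; right; right; right
    rw [List.nil_append] at h1
    rw [h1]; exact h3
  · right; right; right; left
    simp only [List.cons_append, List.nil_append, List.cons.injEq] at h1
    obtain ⟨rfl, rfl⟩ := h1
    exact ⟨by simpa using h2, h3⟩
  · right; right; left
    simp only [List.cons_append, List.nil_append, List.cons.injEq] at h1
    obtain ⟨rfl, rfl, rfl⟩ := h1
    exact ⟨h2, h3⟩
  · right; left
    simp only [List.cons_append, List.nil_append, List.cons.injEq] at h1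
    obtain ⟨rfl, rfl, rfl, rfl⟩ := h1
    exact ⟨h2, by simpa using h3⟩
  · left
    simp only [List.cons_append, List.cons.injEq] at h1
    obtain ⟨rfl, rfl, rfl, rfl, h4⟩ := h1
    have h5 : s = [] := by
      rcases s with _ | _
      · rfl
      · simp at h4
    rw [h5] at h2
    exact h2

/-- decreasing lists -/
def Dec (l : List ℕ) : Prop := l.Pairwise (fun a b => b < a)

/-- lists of distinct entries avoiding 231 -/
def A (l : List ℕ) : Prop := l.Nodup ∧ ∀ a b c, [a, b, c] <+ l → ¬ (c < a ∧ a < b)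

/-- lists of distinct entries avoiding 132 -/
def D (l : List ℕ) : Prop := l.Nodup ∧ ∀ a b c, [a, b, c] <+ l → ¬ (a < c ∧ c < b)

/-- lists avoiding 2413 and 3142 -/
def Sep (l : List ℕ) : Prop := ∀ a b c d, [a, b, c, d] <+ l →
  ¬ (c < a ∧ a < d ∧ d < b) ∧ ¬ (b < d ∧ d < a ∧ a < c)

theorem nodup_append_of_lt {l r : List ℕ} (hl : l.Nodup) (hr : r.Nodup) (h : Lt l r) : (l ++ r).Nodup := by
  rw [List.nodup_append]
  refine ⟨hl, hr, fun a ha b hb hab => ?_⟩
  have := h a ha b hb
  omega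

theorem nodup_append_of_gt {l r : List ℕ} (hl : l.Nodup) (hr : r.Nodup) (h : Lt r l) : (l ++ r).Nodup := by
  rw [List.nodup_append]
  refine ⟨hl, hr, fun a ha b hb hab => ?_⟩
  have := h b hb a ha
  omega

theorem Dec.nodup {l : List ℕ} (h : Dec l) : l.Nodup :=
  List.Pairwise.imp (fun {a b} hab => by omega) h

theorem Dec.sub {l l' : List ℕ} (h : Dec l) (hs : l' <+ l) : Dec l' := List.Pairwise.sublist hs h

theorem dec_nil : Dec [] := List.Pairwise.nil

theorem dec_append {l r : List ℕ} : Dec (l ++ r) ↔ Dec l ∧ Dec r ∧ Lt r l := by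
  unfold Dec
  rw [List.pairwise_append]
  constructor
  · rintro ⟨h1, h2, h3⟩
    exact ⟨h1, h2, fun a ha b hb => h3 b hb a ha⟩
  · rintro ⟨h1, h2, h3⟩
    exact ⟨h1, h2, fun a ha b hb => h3 b hb a ha⟩

theorem dec_singleton (m : ℕ) : Dec [m] := List.pairwise_singleton _ _

/-! ### A -/

theorem A.sub {l l' : List ℕ} (h : A l) (hs : l' <+ l) : A l' :=
  ⟨h.1.sublist hs, fun a b c h3 => h.2 a b c (h3.trans hs)⟩

theorem A_nil : A [] := ⟨List.nodup_nil, fun a b c h => absurd h (by simp)⟩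

theorem mem_of_sub2 {a b : ℕ} {l : List ℕ} (h : [a, b] <+ l) : a ∈ l ∧ b ∈ l :=
  ⟨h.subset (by simp), h.subset (by simp)⟩

theorem mem_of_sub3 {a b c : ℕ} {l : List ℕ} (h : [a, b, c] <+ l) : a ∈ l ∧ b ∈ l ∧ c ∈ l :=
  ⟨h.subset (by simp), h.subset (by simp), h.subset (by simp)⟩

theorem A.plus {l r : List ℕ} (hl : A l) (hr : A r) (h : Lt l r) : A (l ++ r) := by
  refine ⟨nodup_append_of_lt hl.1 hr.1 h, fun a b c h3 => ?_⟩
  rintro ⟨h1, h2⟩
  rcases sub3_append h3 with h4 | ⟨h4, h5⟩ | ⟨h4, h5⟩ | h4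
  · exact hl.2 a b c h4 ⟨h1, h2⟩
  · have := h a (mem_of_sub2 h4).1 c h5; omega
  · have := h a h4 c (mem_of_sub2 h5).2; omega
  · exact hr.2 a b c h4 ⟨h1, h2⟩

theorem A_singleton (m : ℕ) : A [m] := by
  refine ⟨List.nodup_singleton m, fun a b c h => ?_⟩
  have := h.length_le
  simp at this

theorem A.minus {d r : List ℕ} (hd : Dec d) (hr : A r) (h : Lt r d) : A (d ++ r) := by
  refine ⟨nodup_append_of_gt hd.nodup hr.1 h, fun a b c h3 => ?_⟩
  rintro ⟨h1, h2⟩
  rcases sub3_append h3 with h4 | ⟨h4, h5⟩ | ⟨h4, h5⟩ | h4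
  · have := hd.sub h4
    unfold Dec at this
    simp at this
    omega
  · have := hd.sub h4
    unfold Dec at this
    simp at this
    omega
  · have := h b (mem_of_sub2 h5).1 a h4; omega
  · exact hr.2 a b c h4 ⟨h1, h2⟩

theorem Dec.A {l : List ℕ} (h : Dec l) : A l := by
  have := Helper585RC.A.minus h A_nil (Lt.nil_left l)
  rwa [List.append_nil] at this

theorem A_skew {l r : List ℕ} (h : A (l ++ r)) (hlt : Lt r l) (hr : r ≠ []) : Dec l := by
  obtain ⟨c, hc⟩ := List.exists_mem_of_ne_nil r hr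
  have hn := (h.sub (List.sublist_append_left l r)).1
  unfold Dec
  rw [List.pairwise_iff_forall_sublist]
  intro a b hab
  by_contra hba
  have hne : a ≠ b := by
    have := hn.sublist hab
    simp at this
    exact this
  have h3 : [a, b, c] <+ l ++ r := by
    have : [a, b] ++ [c] <+ l ++ r := hab.append (by simpa using hc)
    simpa using this
  exact h.2 a b c h3 ⟨hlt c hc a (mem_of_sub2 hab).1, by omega⟩

theorem A_decomp {l : List ℕ} (h : A l) (hl : l ≠ []) :
    ∃ l1 m r, l = l1 ++ m :: r ∧ Lt l1 (m :: r) ∧ (∀ b ∈ r, b < m) ∧ A l1 ∧ A r := by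
  have hfin : ∃ m ∈ l, ∀ a ∈ l, a ≤ m := by
    obtain ⟨m, hm, hmax⟩ := Finset.exists_max_image l.toFinset id
      (by obtain ⟨x, hx⟩ := List.exists_mem_of_ne_nil l hl; exact ⟨x, by simpa using hx⟩)
    exact ⟨m, by simpa using hm, fun a ha => hmax a (by simpa using ha)⟩
  obtain ⟨m, hm, hmax⟩ := hfin
  obtain ⟨l1, r, rfl⟩ := List.append_of_mem hm
  have hn := h.1
  rw [List.nodup_append] at hn
  obtain ⟨hn1, hn2, hn3⟩ := hn
  rw [List.nodup_cons] at hn2
  have hrm : ∀ b ∈ r, b < m := by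
    intro b hb
    have h1 := hmax b (by simp [hb])
    have h2 : b ≠ m := by rintro rfl; exact hn2.1 hb
    omega
  have hlm : ∀ a ∈ l1, a < m := by
    intro a ha
    have h1 := hmax a (by simp [ha])
    have h2 : a ≠ m := hn3 a ha m (by simp)
    omega
  refine ⟨l1, m, r, rfl, ?_, hrm, h.sub (List.sublist_append_left _ _),
    h.sub ((List.sublist_cons_self m r).trans (List.sublist_append_right _ _))⟩
  intro a ha b hb
  rcases List.mem_cons.1 hb with rfl | hb
  · exact hlm a ha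
  · by_contra hab
    have hne : a ≠ b := hn3 a ha b (by simp [hb])
    have h3 : [a, m, b] <+ l1 ++ m :: r := by
      have : [a] ++ [m, b] <+ l1 ++ m :: r :=
        (List.singleton_sublist.2 ha).append ((List.singleton_sublist.2 hb).cons_cons m)
      simpa using this
    exact h.2 a m b h3 ⟨by omega, hlm a ha⟩

/-! ### D -/

theorem D.sub {l l' : List ℕ} (h : D l) (hs : l' <+ l) : D l' :=
  ⟨h.1.sublist hs, fun a b c h3 => h.2 a b c (h3.trans hs)⟩

theorem D_reverse {l : List ℕ} : D l.reverse ↔ A l := by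
  unfold D A
  rw [List.nodup_reverse]
  refine and_congr_right fun _ => ?_
  constructor
  · intro h a b c h3 h4
    refine h c b a ?_ ⟨h4.1, h4.2⟩
    have := h3.reverse
    simpa using this
  · intro h a b c h3 h4
    refine h c b a ?_ ⟨h4.1, h4.2⟩
    have := h3.reverse
    simpa using this

theorem D.minus {l r : List ℕ} (hl : D l) (hr : D r) (h : Lt r l) : D (l ++ r) := by
  rw [← List.reverse_reverse (l ++ r), D_reverse, List.reverse_append]
  refine A.plus ?_ ?_ ?_
  · rw [← D_reverse, List.reverse_reverse]; exact hr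
  · rw [← D_reverse, List.reverse_reverse]; exact hl
  · intro a ha b hb
    exact h a (by simpa using ha) b (by simpa using hb)

theorem Dec.D {l : List ℕ} (h : Dec l) : D l := by
  refine ⟨h.nodup, fun a b c h3 h4 => ?_⟩
  have := h.sub h3
  unfold Dec at this
  simp at this
  omega

theorem D_nil : D [] := dec_nil.D

/-- in a sum in `D` the upper part is increasing, so in `A` -/
theorem D_sum {l r : List ℕ} (h : D (l ++ r)) (hlt : Lt l r) (hl : l ≠ []) : A r := by
  obtain ⟨a, ha⟩ := List.exists_mem_of_ne_nil l hl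
  refine ⟨(h.sub (List.sublist_append_right l r)).1, fun x y z h3 h4 => ?_⟩
  have h5 : [x, z] <+ r := by
    refine List.Sublist.trans ?_ h3
    exact ((List.sublist_cons_self y [z]).cons_cons x)
  have h6 : [a, x, z] <+ l ++ r := by
    have : [a] ++ [x, z] <+ l ++ r := (List.singleton_sublist.2 ha).append h5
    simpa using this
  have h7 := hlt a ha z (mem_of_sub3 h3).2.2
  exact h.2 a x z h6 ⟨h7, h4.1⟩

/-! ### Sep -/

theorem Sep.plus {l r : List ℕ} (hl : Sep l) (hr : Sep r) (h : Lt l r) : Sep (l ++ r) := by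
  intro a b c d h4
  rcases sub4_append h4 with h5 | ⟨h5, h6⟩ | ⟨h5, h6⟩ | ⟨h5, h6⟩ | h5
  · exact hl a b c d h5
  · have h1 := h a (mem_of_sub3 h5).1 d h6
    have h2 := h b (mem_of_sub3 h5).2.1 d h6
    have h3 := h c (mem_of_sub3 h5).2.2 d h6
    omega
  · have h1 := h a (mem_of_sub2 h5).1 c (mem_of_sub2 h6).1
    have h2 := h b (mem_of_sub2 h5).2 d (mem_of_sub2 h6).2
    have h3 := h a (mem_of_sub2 h5).1 d (mem_of_sub2 h6).2
    have h3 := h b (mem_of_sub2 h5).2 c (mem_of_sub2 h6).1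
    omega
  · have h1 := h a h5 b (mem_of_sub3 h6).1
    have h2 := h a h5 c (mem_of_sub3 h6).2.1
    have h3 := h a h5 d (mem_of_sub3 h6).2.2
    omega
  · exact hr a b c d h5

theorem Sep.minus {l r : List ℕ} (hl : Sep l) (hr : Sep r) (h : Lt r l) : Sep (l ++ r) := by
  intro a b c d h4
  rcases sub4_append h4 with h5 | ⟨h5, h6⟩ | ⟨h5, h6⟩ | ⟨h5, h6⟩ | h5
  · exact hl a b c d h5
  · have h1 := h d h6 a (mem_of_sub3 h5).1
    have h2 := h d h6 b (mem_of_sub3 h5).2.1
    have h3 := h d h6 c (mem_of_sub3 h5).2.2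
    omega
  · have h1 := h c (mem_of_sub2 h6).1 a (mem_of_sub2 h5).1
    have h2 := h d (mem_of_sub2 h6).2 b (mem_of_sub2 h5).2
    have h3 := h d (mem_of_sub2 h6).2 a (mem_of_sub2 h5).1
    have h3 := h c (mem_of_sub2 h6).1 b (mem_of_sub2 h5).2
    omega
  · have h1 := h b (mem_of_sub3 h6).1 a h5
    have h2 := h c (mem_of_sub3 h6).2.1 a h5
    have h3 := h d (mem_of_sub3 h6).2.2 a h5
    omega
  · exact hr a b c d h5

theorem Sep_nil : Sep [] := fun a b c d h => absurd h (by simp)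

theorem Sep_singleton (m : ℕ) : Sep [m] := by
  intro a b c d h
  have := h.length_le
  simp at this

theorem A.sep {l : List ℕ} (h : A l) : Sep l := by
  intro a b c d h4
  constructor
  · rintro ⟨h1, h2, h3⟩
    have h5 : [a, b, c] <+ l := by
      refine List.Sublist.trans ?_ h4
      exact List.Sublist.cons_cons a (List.Sublist.cons_cons b (List.Sublist.cons_cons c (List.nil_sublist _)))
    exact h.2 a b c h5 ⟨h1, by omega⟩
  · rintro ⟨h1, h2, h3⟩
    have h5 : [a, c, d] <+ l := by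
      refine List.Sublist.trans ?_ h4
      exact List.Sublist.cons_cons a (List.Sublist.cons b (List.Sublist.refl _))
    exact h.2 a c d h5 ⟨h2, h3⟩

theorem D.sep {l : List ℕ} (h : D l) : Sep l := by
  intro a b c d h4
  constructor
  · rintro ⟨h1, h2, h3⟩
    have h5 : [a, b, d] <+ l := by
      refine List.Sublist.trans ?_ h4
      exact List.Sublist.cons_cons a (List.Sublist.cons_cons b (List.Sublist.cons c (List.Sublist.refl _)))
    exact h.2 a b d h5 ⟨h2, h3⟩
  · rintro ⟨h1, h2, h3⟩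
    have h5 : [b, c, d] <+ l := by
      refine List.Sublist.trans ?_ h4
      exact List.Sublist.cons a (List.Sublist.refl _)
    exact h.2 b c d h5 ⟨h1, by omega⟩

/-! ### The closure -/

/-- the closure of `B` under adding elements of `A` above on the right, elements of `Q` above on the left, and a single
entry below on the right -/
inductive Cl (Q B : List ℕ → Prop) : List ℕ → Prop
  | base {l : List ℕ} : B l → Cl Q B l
  | plus {l r : List ℕ} : Cl Q B l → A r → Lt l r → Cl Q B (l ++ r)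
  | minus {l r : List ℕ} : Q l → Cl Q B r → Lt r l → Cl Q B (l ++ r)
  | last {l : List ℕ} {m : ℕ} : Cl Q B l → Lt [m] l → Cl Q B (l ++ [m])

theorem Cl.sub {Q B : List ℕ → Prop} (hQ : ∀ l l', Q l → l' <+ l → Q l') (hB : ∀ l l', B l → l' <+ l → B l')
    {l l' : List ℕ} (h : Cl Q B l) (hs : l' <+ l) : Cl Q B l' := by
  induction h generalizing l' with
  | base h => exact .base (hB _ _ h hs)
  | plus _ hr hlt ih =>
    obtain ⟨s1, s2, rfl, h1, h2⟩ := List.sublist_append_iff.1 hs
    exact .plus (ih h1) (hr.sub h2) (hlt.sub h1 h2)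
  | minus hl _ hlt ih =>
    obtain ⟨s1, s2, rfl, h1, h2⟩ := List.sublist_append_iff.1 hs
    exact .minus (hQ _ _ hl h1) (ih h2) (hlt.sub h2 h1)
  | last _ hlt ih =>
    obtain ⟨s1, s2, rfl, h1, h2⟩ := List.sublist_append_iff.1 hs
    rcases List.sublist_singleton.1 h2 with rfl | rfl
    · rw [List.append_nil]; exact ih h1
    · exact .last (ih h1) (hlt.sub (List.Sublist.refl _) h1)

/-- `f` is increasing on the entries of `l` -/
def Mono (f : ℕ → ℕ) (l : List ℕ) : Prop := ∀ a ∈ l, ∀ b ∈ l, a < b → f a < f b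

theorem Mono.mono {f : ℕ → ℕ} {l l' : List ℕ} (h : Mono f l) (hs : l' ⊆ l) : Mono f l' :=
  fun a ha b hb => h a (hs ha) b (hs hb)

/-- invariance under order isomorphism -/
def MapInv (P : List ℕ → Prop) : Prop := ∀ l f, Mono f l → P l → P (l.map f)

theorem Mono.lt_iff {f : ℕ → ℕ} {l : List ℕ} (h : Mono f l) {a b : ℕ} (ha : a ∈ l) (hb : b ∈ l) :
    f a < f b ↔ a < b := by
  constructor
  · intro hab
    by_contra hn
    rcases Nat.lt_or_ge b a with h1 | h1
    · have := h b hb a ha h1; omega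
    · have h2 : a = b := by omega
      subst h2; omega
  · exact h a ha b hb

theorem Mono.inj {f : ℕ → ℕ} {l : List ℕ} (h : Mono f l) {a b : ℕ} (ha : a ∈ l) (hb : b ∈ l) (hab : f a = f b) :
    a = b := by
  rcases Nat.lt_trichotomy a b with h1 | h1 | h1
  · have := h a ha b hb h1; omega
  · exact h1
  · have := h b hb a ha h1; omega

theorem Mono.lt_map {f : ℕ → ℕ} {l r : List ℕ} (h : Mono f (l ++ r)) : Lt (l.map f) (r.map f) ↔ Lt l r := by
  constructor
  · intro h1 a ha b hb
    exact (h.lt_iff (by simp [ha]) (by simp [hb])).1 (h1 (f a) (List.mem_map_of_mem ha) (f b) (List.mem_map_of_mem hb))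
  · intro h1 a ha b hb
    obtain ⟨a', ha', rfl⟩ := List.mem_map.1 ha
    obtain ⟨b', hb', rfl⟩ := List.mem_map.1 hb
    exact (h.lt_iff (by simp [ha']) (by simp [hb'])).2 (h1 a' ha' b' hb')

theorem MapInv.iff {P : List ℕ → Prop} (hP : MapInv P) {l : List ℕ} {f : ℕ → ℕ} (hf : Mono f l) :
    P (l.map f) ↔ P l := by
  refine ⟨fun h => ?_, hP l f hf⟩
  have hinj : Set.InjOn f {x | x ∈ l} := fun a ha b hb hab => hf.inj ha hb hab
  let g := Function.invFunOn f {x | x ∈ l}
  have hg : ∀ a ∈ l, g (f a) = a := by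
    intro a ha
    exact hinj.leftInvOn_invFunOn ha
  have h1 : (l.map f).map g = l := by
    rw [List.map_map]
    conv_rhs => rw [← List.map_id l]
    exact List.map_congr_left fun a ha => hg a ha
  rw [← h1]
  refine hP _ g ?_ h
  intro a ha b hb hab
  obtain ⟨a', ha', rfl⟩ := List.mem_map.1 ha
  obtain ⟨b', hb', rfl⟩ := List.mem_map.1 hb
  rw [hg a' ha', hg b' hb']
  exact (hf.lt_iff ha' hb').1 hab

theorem MapInv.not {P : List ℕ → Prop} (hP : MapInv P) : MapInv (fun l => ¬ P l) := by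
  intro l f hf h h'
  exact h ((hP.iff hf).1 h')

theorem MapInv.and {P Q : List ℕ → Prop} (hP : MapInv P) (hQ : MapInv Q) : MapInv (fun l => P l ∧ Q l) :=
  fun l f hf h => ⟨hP l f hf h.1, hQ l f hf h.2⟩

theorem mapInv_dec : MapInv Dec := by
  intro l f hf h
  unfold Dec at h ⊢
  rw [List.pairwise_map]
  refine List.Pairwise.imp_of_mem ?_ h
  intro a b ha hb hab
  exact hf b hb a ha hab

theorem nodup_map {l : List ℕ} {f : ℕ → ℕ} (hf : Mono f l) (h : l.Nodup) : (l.map f).Nodup :=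
  h.map_on fun _ ha _ hb hab => hf.inj ha hb hab

theorem mapInv_A : MapInv A := by
  intro l f hf h
  refine ⟨nodup_map hf h.1, fun a b c h3 h4 => ?_⟩
  obtain ⟨s, hs, h5⟩ := List.sublist_map_iff.1 h3
  rcases s with _ | ⟨x, _ | ⟨y, _ | ⟨z, _ | ⟨w, s⟩⟩⟩⟩ <;> simp at h5
  obtain ⟨rfl, rfl, rfl⟩ := h5
  obtain ⟨hx, hy, hz⟩ := mem_of_sub3 hs
  exact h.2 x y z hs ⟨(hf.lt_iff hz hx).1 h4.1, (hf.lt_iff hx hy).1 h4.2⟩

theorem mapInv_D : MapInv D := by
  intro l f hf h
  refine ⟨nodup_map hf h.1, fun a b c h3 h4 => ?_⟩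
  obtain ⟨s, hs, h5⟩ := List.sublist_map_iff.1 h3
  rcases s with _ | ⟨x, _ | ⟨y, _ | ⟨z, _ | ⟨w, s⟩⟩⟩⟩ <;> simp at h5
  obtain ⟨rfl, rfl, rfl⟩ := h5
  obtain ⟨hx, hy, hz⟩ := mem_of_sub3 hs
  exact h.2 x y z hs ⟨(hf.lt_iff hx hz).1 h4.1, (hf.lt_iff hz hy).1 h4.2⟩

theorem mapInv_Cl {Q B : List ℕ → Prop} (hQ : MapInv Q) (hB : MapInv B) : MapInv (Cl Q B) := by
  intro l f hf h
  induction h with
  | base h => exact .base (hB _ _ hf h)
  | @plus l r hl hr hlt ih =>
    rw [List.map_append]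
    exact .plus (ih (hf.mono (by simp))) (mapInv_A _ _ (hf.mono (by simp)) hr) (hf.lt_map.2 hlt)
  | @minus l r hl hr hlt ih =>
    rw [List.map_append]
    refine .minus (hQ _ _ (hf.mono (by simp)) hl) (ih (hf.mono (by simp))) ?_
    refine Mono.lt_map (l := r) (r := l) (hf.mono ?_) |>.2 hlt
    intro a ha
    rcases List.mem_append.1 ha with h | h
    · exact List.mem_append_right _ h
    · exact List.mem_append_left _ h
  | @last l m hl hlt ih =>
    rw [List.map_append]
    refine .last (ih (hf.mono (by simp))) ?_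
    have : Mono f ([m] ++ l) := hf.mono (by
      intro a ha
      rcases List.mem_append.1 ha with h | h
      · exact List.mem_append_right _ h
      · exact List.mem_append_left _ h)
    exact this.lt_map.2 hlt

theorem Cl.sep {Q B : List ℕ → Prop} (hQ : ∀ l, Q l → Sep l) (hB : ∀ l, B l → Sep l) {l : List ℕ}
    (h : Cl Q B l) : Sep l := by
  induction h with
  | base h => exact hB _ h
  | plus _ hr hlt ih => exact ih.plus hr.sep hlt
  | minus hl _ hlt ih => exact (hQ _ hl).minus ih hlt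
  | last _ hlt ih => exact ih.minus (Sep_singleton _) hlt

theorem Cl.nodup {Q B : List ℕ → Prop} (hQ : ∀ l, Q l → l.Nodup) (hB : ∀ l, B l → l.Nodup) {l : List ℕ}
    (h : Cl Q B l) : l.Nodup := by
  induction h with
  | base h => exact hB _ h
  | plus _ hr hlt ih => exact nodup_append_of_lt ih hr.1 hlt
  | minus hl _ hlt ih => exact nodup_append_of_gt (hQ _ hl) ih hlt
  | last _ hlt ih => exact nodup_append_of_gt ih (List.nodup_singleton _) hlt

/-- the inner class -/
def T : List ℕ → Prop := Cl Dec (fun l => l = [])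

/-- the base of the outer class -/
def CB (l : List ℕ) : Prop := ∃ d t, l = d ++ t ∧ Dec d ∧ T t ∧ Lt d t

/-- the outer class -/
def C : List ℕ → Prop := Cl D CB

theorem T.sub {l l' : List ℕ} (h : T l) (hs : l' <+ l) : T l' := by
  refine Cl.sub (fun _ _ h hs => h.sub hs) ?_ h hs
  rintro _ l' rfl hs
  exact List.sublist_nil.1 hs

theorem CB.sub {l l' : List ℕ} (h : CB l) (hs : l' <+ l) : CB l' := by
  obtain ⟨d, t, rfl, hd, ht, hlt⟩ := h
  obtain ⟨s1, s2, rfl, h1, h2⟩ := List.sublist_append_iff.1 hs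
  exact ⟨s1, s2, rfl, hd.sub h1, ht.sub h2, hlt.sub h1 h2⟩

theorem C.sub {l l' : List ℕ} (h : C l) (hs : l' <+ l) : C l' :=
  Cl.sub (fun _ _ h hs => h.sub hs) (fun _ _ h hs => h.sub hs) h hs

theorem mapInv_T : MapInv T := by
  refine mapInv_Cl mapInv_dec ?_
  rintro l f _ rfl
  rfl

theorem mapInv_CB : MapInv CB := by
  rintro l f hf ⟨d, t, rfl, hd, ht, hlt⟩
  refine ⟨d.map f, t.map f, List.map_append, mapInv_dec _ _ (hf.mono (by simp)) hd,
    mapInv_T _ _ (hf.mono (by simp)) ht, hf.lt_map.2 hlt⟩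

theorem mapInv_C : MapInv C := mapInv_Cl mapInv_D mapInv_CB

theorem Dec.sep {l : List ℕ} (h : Dec l) : Sep l := h.A.sep

theorem T.sep {l : List ℕ} (h : T l) : Sep l := by
  refine Cl.sep (fun _ h => h.sep) ?_ h
  rintro _ rfl
  exact Sep_nil

theorem CB.sep {l : List ℕ} (h : CB l) : Sep l := by
  obtain ⟨d, t, rfl, hd, ht, hlt⟩ := h
  exact hd.sep.plus ht.sep hlt

theorem C.sep {l : List ℕ} (h : C l) : Sep l := Cl.sep (fun _ h => h.sep) (fun _ h => h.sep) h

theorem T_nil : T [] := .base rfl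

theorem A.T {l : List ℕ} (h : A l) : T l := Cl.plus T_nil h (Lt.nil_left l)

theorem Dec.T {l : List ℕ} (h : Dec l) : T l := h.A.T

theorem T.CB {l : List ℕ} (h : T l) : CB l := ⟨[], l, rfl, dec_nil, h, Lt.nil_left l⟩

theorem T.C {l : List ℕ} (h : T l) : C l := .base h.CB

theorem A.C {l : List ℕ} (h : A l) : C l := h.T.C

theorem C_nil : C [] := T_nil.C

theorem D.C {l : List ℕ} (h : D l) : C l := by
  have : Helper585RC.C (l ++ []) := Cl.minus h C_nil (Lt.nil_left l)
  rwa [List.append_nil] at this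

theorem Dec.C {l : List ℕ} (h : Dec l) : C l := h.D.C

end Pool.Agent.Helper585RC
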