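import Pool.Agent.Helper585RC.Struct

/-!
# Counting
-/

set_option autoImplicit false

namespace Pool.Agent.Helper585RC

open List

/-- the permutations of length `n` (as lists) with `P` -/
noncomputable def S (P : List ℕ → Prop) (n : ℕ) : Finset (List ℕ) :=
  @Finset.filter _ P (Classical.decPred P) (List.range n).permutations.toFinset

theorem mem_S {P : List ℕ → Prop} {n : ℕ} {l : List ℕ} : l ∈ S P n ↔ l.Perm (List.range n) ∧ P l := by
  unfold S
  rw [@Finset.mem_filter _ P (Classical.decPred P), List.mem_toFinset, List.mem_permutations]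

/-- their number -/
noncomputable def N (P : List ℕ → Prop) (n : ℕ) : ℕ := (S P n).card

theorem perm_split {l1 l2 : List ℕ} {n : ℕ} (h : (l1 ++ l2).Perm (List.range n)) (hlt : Lt l1 l2) :
    l1.length + l2.length = n ∧ l1.Perm (List.range l1.length) ∧ (∀ b ∈ l2, l1.length ≤ b) ∧
      (l2.map (· - l1.length)).Perm (List.range l2.length) := by
  have hlen : l1.length + l2.length = n := by
    have := h.length_eq
    rwa [List.length_append, List.length_range] at this
  have hnd : (l1 ++ l2).Nodup := h.nodup_iff.2 List.nodup_range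
  rw [List.nodup_append] at hnd
  obtain ⟨hn1, hn2, -⟩ := hnd
  have hmem : ∀ x, x ∈ l1 ++ l2 ↔ x < n := by
    intro x
    rw [h.mem_iff, List.mem_range]
  have hcard : l1.toFinset.card = l1.length := List.toFinset_card_of_nodup hn1
  have c1 : ∀ a ∈ l1, a < l1.length := by
    intro a ha
    have hsub : Finset.range (a + 1) ⊆ l1.toFinset := by
      intro x hx
      rw [Finset.mem_range] at hx
      have han : a < n := (hmem a).1 (List.mem_append_left _ ha)
      have hxm := (hmem x).2 (by omega)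
      rw [List.mem_toFinset]
      rcases List.mem_append.1 hxm with h1 | h1
      · exact h1
      · have := hlt a ha x h1; omega
    have := Finset.card_le_card hsub
    rw [Finset.card_range, hcard] at this
    omega
  have c2 : ∀ x, x < l1.length → x ∈ l1 := by
    intro x hx
    have hsub : l1.toFinset ⊆ Finset.range l1.length := by
      intro y hy
      rw [Finset.mem_range]
      exact c1 y (List.mem_toFinset.1 hy)
    have heq := Finset.eq_of_subset_of_card_le hsub (by rw [Finset.card_range, hcard])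
    have : x ∈ l1.toFinset := by rw [heq, Finset.mem_range]; exact hx
    exact List.mem_toFinset.1 this
  have c3 : ∀ b ∈ l2, l1.length ≤ b := by
    intro b hb
    by_contra hb'
    have := hlt b (c2 b (by omega)) b hb
    omega
  refine ⟨hlen, ?_, c3, ?_⟩
  · refine (List.perm_ext_iff_of_nodup hn1 List.nodup_range).2 fun x => ?_
    rw [List.mem_range]
    exact ⟨c1 x, c2 x⟩
  · have hn3 : (l2.map (· - l1.length)).Nodup := by
      refine hn2.map_on fun x hx y hy hxy => ?_
      have := c3 x hx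
      have := c3 y hy
      omega
    refine (List.perm_ext_iff_of_nodup hn3 List.nodup_range).2 fun x => ?_
    rw [List.mem_range, List.mem_map]
    constructor
    · rintro ⟨b, hb, rfl⟩
      have h1 := c3 b hb
      have h2 := (hmem b).1 (List.mem_append_right _ hb)
      omega
    · intro hx
      have h1 := (hmem (x + l1.length)).2 (by omega)
      rcases List.mem_append.1 h1 with h2 | h2
      · have := c1 _ h2; omega
      · exact ⟨_, h2, by omega⟩

theorem perm_join {l1 l2 : List ℕ} {i j : ℕ} (h1 : l1.Perm (List.range i)) (h2 : l2.Perm (List.range j)) :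
    (l1 ++ l2.map (· + i)).Perm (List.range (i + j)) ∧ Lt l1 (l2.map (· + i)) := by
  constructor
  · rw [List.range_add]
    refine h1.append ?_
    have := h2.map (· + i)
    refine this.trans ?_
    rw [show (fun x => x + i) = (fun x => i + x) from funext fun x => Nat.add_comm x i]
  · intro a ha b hb
    have := List.mem_range.1 (h1.mem_iff.1 ha)
    obtain ⟨b', hb', rfl⟩ := List.mem_map.1 hb
    omega

theorem mono_add (i : ℕ) (l : List ℕ) : Mono (· + i) l := fun a _ b _ h => by
  change a + i < b + i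
  omega

theorem N_plus {P Q : List ℕ → Prop} (hQ : MapInv Q)
    (U : ∀ l1 l2 r1 r2, l1 ++ l2 = r1 ++ r2 → Lt l1 l2 → Lt r1 r2 → P l1 → Q l2 → P r1 → Q r2 → l1 = r1) (n : ℕ) :
    N (Plus P Q) n = ∑ p ∈ Finset.HasAntidiagonal.antidiagonal n, N P p.1 * N Q p.2 := by
  have e : ∑ p ∈ Finset.HasAntidiagonal.antidiagonal n, N P p.1 * N Q p.2 =
      ((Finset.HasAntidiagonal.antidiagonal n).sigma fun p => S P p.1 ×ˢ S Q p.2).card := by
    rw [Finset.card_sigma]
    refine Finset.sum_congr rfl fun p _ => ?_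
    rw [Finset.card_product]
    rfl
  rw [e]
  symm
  refine Finset.card_bij (fun x _ => x.2.1 ++ x.2.2.map (· + x.1.1)) ?_ ?_ ?_
  · rintro ⟨⟨i, j⟩, l1, l2⟩ h
    simp only [Finset.mem_sigma, Finset.mem_product, mem_S, Finset.HasAntidiagonal.mem_antidiagonal] at h ⊢
    obtain ⟨rfl, ⟨h1, h2⟩, h3, h4⟩ := h
    obtain ⟨h5, h6⟩ := perm_join h1 h3
    exact ⟨h5, l1, _, rfl, h6, h2, hQ _ _ (mono_add i l2) h4⟩
  · rintro ⟨⟨i, j⟩, l1, l2⟩ h ⟨⟨i', j'⟩, r1, r2⟩ h' heq
    simp only [Finset.mem_sigma, Finset.mem_product, mem_S, Finset.HasAntidiagonal.mem_antidiagonal] at h h' heq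
    obtain ⟨h0, ⟨h1, h2⟩, h3, h4⟩ := h
    obtain ⟨h0', ⟨h1', h2'⟩, h3', h4'⟩ := h'
    have hu := U _ _ _ _ heq (perm_join h1 h3).2 (perm_join h1' h3').2 h2 (hQ _ _ (mono_add i l2) h4) h2'
      (hQ _ _ (mono_add i' r2) h4')
    subst hu
    have hi : i = i' := by
      have e1 := h1.length_eq
      have e2 := h1'.length_eq
      rw [List.length_range] at e1 e2
      omega
    subst hi
    have hj : j = j' := by omega
    subst hj
    have h7 := List.append_cancel_left heq
    have h8 : l2 = r2 := by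
      have hinj : Function.Injective (fun x : ℕ => x + i) := fun x y hxy => by simpa using hxy
      exact List.map_injective_iff.2 hinj h7
    subst h8
    rfl
  · intro l hl
    rw [mem_S] at hl
    obtain ⟨hp, l1, l2, rfl, hlt, h1, h2⟩ := hl
    obtain ⟨e1, e2, e3, e4⟩ := perm_split hp hlt
    refine ⟨⟨(l1.length, l2.length), l1, l2.map (· - l1.length)⟩, ?_, ?_⟩
    · simp only [Finset.mem_sigma, Finset.mem_product, mem_S, Finset.HasAntidiagonal.mem_antidiagonal]
      refine ⟨e1, ⟨e2, h1⟩, e4, hQ _ _ ?_ h2⟩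
      intro a ha b hb hab
      have := e3 a ha
      have := e3 b hb
      change a - l1.length < b - l1.length
      omega
    · simp only [List.map_map]
      congr 1
      conv_rhs => rw [← List.map_id l2]
      refine List.map_congr_left fun b hb => ?_
      have := e3 b hb
      simp only [Function.comp_apply, id_eq]
      omega

theorem N_reverse (P : List ℕ → Prop) (n : ℕ) : N (fun l => P l.reverse) n = N P n := by
  unfold N
  refine Finset.card_bij (fun l _ => l.reverse) ?_ ?_ ?_
  · intro l hl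
    rw [mem_S] at hl ⊢
    exact ⟨(List.reverse_perm l).trans hl.1, hl.2⟩
  · intro l _ l' _ h
    exact List.reverse_injective h
  · intro l hl
    rw [mem_S] at hl
    refine ⟨l.reverse, ?_, List.reverse_reverse l⟩
    rw [mem_S, List.reverse_reverse]
    exact ⟨(List.reverse_perm l).trans hl.1, hl.2⟩

theorem N_minus {P Q : List ℕ → Prop} (hP : MapInv P)
    (U : ∀ l1 l2 r1 r2, l1 ++ l2 = r1 ++ r2 → Lt l2 l1 → Lt r2 r1 → P l1 → Q l2 → P r1 → Q r2 → l1 = r1) (n : ℕ) :
    N (Minus P Q) n = ∑ p ∈ Finset.HasAntidiagonal.antidiagonal n, N P p.1 * N Q p.2 := by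
  have h1 : (fun l : List ℕ => Minus P Q l.reverse) = Plus (fun l => Q l.reverse) (fun l => P l.reverse) := by
    funext l
    apply propext
    constructor
    · rintro ⟨l1, l2, h, hlt, h2, h3⟩
      refine ⟨l2.reverse, l1.reverse, ?_, ?_, by simpa using h3, by simpa using h2⟩
      · rw [← List.reverse_append, ← h, List.reverse_reverse]
      · intro a ha b hb
        exact hlt a (by simpa using ha) b (by simpa using hb)
    · rintro ⟨l1, l2, rfl, hlt, h2, h3⟩
      refine ⟨l2.reverse, l1.reverse, List.reverse_append, ?_, h3, h2⟩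
      intro a ha b hb
      exact hlt a (by simpa using ha) b (by simpa using hb)
  rw [← N_reverse, h1, N_plus]
  · simp only [N_reverse]
    rw [← Finset.Nat.sum_antidiagonal_swap]
    refine Finset.sum_congr rfl fun p _ => ?_
    simp only [Prod.fst_swap, Prod.snd_swap]
    ring
  · intro l f hf h
    rw [← List.map_reverse]
    exact hP _ _ (hf.mono (by simp)) h
  · intro l1 l2 r1 r2 h hl hr h2 h3 h4 h5
    have h6 : l2.reverse ++ l1.reverse = r2.reverse ++ r1.reverse := by
      rw [← List.reverse_append, ← List.reverse_append, h]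
    have h7 := U _ _ _ _ h6 (by
      intro a ha b hb
      exact hl a (by simpa using ha) b (by simpa using hb)) (by
      intro a ha b hb
      exact hr a (by simpa using ha) b (by simpa using hb)) h3 h2 h5 h4
    have h8 := List.reverse_injective h7
    subst h8
    exact List.append_cancel_right h

/-! ### Generating functions -/

/-- the generating function -/
noncomputable def gf (P : List ℕ → Prop) : PowerSeries ℤ := PowerSeries.mk fun n => (N P n : ℤ)

theorem gf_congr {P Q : List ℕ → Prop} (h : ∀ l, P l ↔ Q l) : gf P = gf Q := by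
  rw [show P = Q from funext fun l => propext (h l)]

theorem gf_plus {P Q : List ℕ → Prop} (hQ : MapInv Q)
    (U : ∀ l1 l2 r1 r2, l1 ++ l2 = r1 ++ r2 → Lt l1 l2 → Lt r1 r2 → P l1 → Q l2 → P r1 → Q r2 → l1 = r1) :
    gf (Plus P Q) = gf P * gf Q := by
  ext n
  rw [PowerSeries.coeff_mul]
  simp only [gf, PowerSeries.coeff_mk]
  rw [N_plus hQ U]
  push_cast
  rfl

theorem gf_minus {P Q : List ℕ → Prop} (hP : MapInv P)
    (U : ∀ l1 l2 r1 r2, l1 ++ l2 = r1 ++ r2 → Lt l2 l1 → Lt r2 r1 → P l1 → Q l2 → P r1 → Q r2 → l1 = r1) :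
    gf (Minus P Q) = gf P * gf Q := by
  ext n
  rw [PowerSeries.coeff_mul]
  simp only [gf, PowerSeries.coeff_mk]
  rw [N_minus hP U]
  push_cast
  rfl

theorem gf_or {P Q : List ℕ → Prop} (h : ∀ l, P l → Q l → False) : gf (fun l => P l ∨ Q l) = gf P + gf Q := by
  classical
  ext n
  simp only [gf, map_add, PowerSeries.coeff_mk]
  have h1 : S (fun l => P l ∨ Q l) n = S P n ∪ S Q n := by
    ext l
    rw [Finset.mem_union, mem_S, mem_S, mem_S]
    tauto
  have h2 : Disjoint (S P n) (S Q n) := by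
    rw [Finset.disjoint_left]
    intro l hl hl'
    exact h l (mem_S.1 hl).2 (mem_S.1 hl').2
  unfold N
  rw [h1, Finset.card_union_of_disjoint h2]
  push_cast
  rfl

theorem gf_reverse (P : List ℕ → Prop) : gf (fun l => P l.reverse) = gf P := by
  ext n
  simp only [gf, PowerSeries.coeff_mk, N_reverse]

theorem gf_nil : gf (fun l => l = []) = 1 := by
  ext n
  simp only [gf, PowerSeries.coeff_mk, PowerSeries.coeff_one]
  by_cases hn : n = 0
  · subst hn
    rw [if_pos rfl]
    have : S (fun l => l = []) 0 = {[]} := by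
      ext l
      rw [mem_S, Finset.mem_singleton]
      constructor
      · exact fun h => h.2
      · rintro rfl; exact ⟨by simp, rfl⟩
    unfold N
    rw [this]; simp
  · rw [if_neg hn]
    have : S (fun l => l = []) n = ∅ := by
      rw [Finset.eq_empty_iff_forall_notMem]
      intro l hl
      rw [mem_S] at hl
      obtain ⟨h1, rfl⟩ := hl
      have := h1.length_eq
      rw [List.length_range] at this
      simp at this
      omega
    unfold N
    rw [this]; simp

theorem gf_single : gf Single = PowerSeries.X := by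
  ext n
  simp only [gf, PowerSeries.coeff_mk, PowerSeries.coeff_X]
  by_cases hn : n = 1
  · subst hn
    rw [if_pos rfl]
    have : S Single 1 = {[0]} := by
      ext l
      rw [mem_S, Finset.mem_singleton]
      constructor
      · rintro ⟨h, m, rfl⟩
        have := h.mem_iff.1 (List.mem_singleton.2 rfl : m ∈ [m])
        rw [List.mem_range] at this
        rw [show m = 0 by omega]
      · rintro rfl
        exact ⟨by simp [List.range_succ], 0, rfl⟩
    unfold N
    rw [this]; simp
  · rw [if_neg hn]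
    have : S Single n = ∅ := by
      rw [Finset.eq_empty_iff_forall_notMem]
      intro l hl
      rw [mem_S] at hl
      obtain ⟨h1, m, rfl⟩ := hl
      have := h1.length_eq
      rw [List.length_range, List.length_singleton] at this
      omega
    unfold N
    rw [this]; simp

theorem gf_ne_nil {P : List ℕ → Prop} (h : P []) : gf (fun l => P l ∧ l ≠ []) = gf P - 1 := by
  have h1 : gf P = gf (fun l => l = [] ∨ (P l ∧ l ≠ [])) := by
    refine gf_congr fun l => ?_
    by_cases hl : l = []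
    · subst hl; simp [h]
    · simp [hl]
  rw [h1, gf_or (fun l h2 h3 => h3.2 h2), gf_nil]
  ring

theorem gf_indec {P : List ℕ → Prop} (h1 : ∀ m, P [m]) (ht : ∀ l, P l → Tri l) :
    gf (fun l => P l ∧ l ≠ [] ∧ ¬ SumDec l) = PowerSeries.X + gf (fun l => P l ∧ SkewDec l) := by
  have h2 : gf (fun l => P l ∧ l ≠ [] ∧ ¬ SumDec l) = gf (fun l => Single l ∨ (P l ∧ SkewDec l)) := by
    refine gf_congr fun l => ?_
    constructor
    · rintro ⟨h3, h4, h5⟩
      rcases ht l h3 with h6 | h6 | h6 | h6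
      · exact absurd h6 h4
      · exact Or.inl h6
      · exact absurd h6 h5
      · exact Or.inr ⟨h3, h6⟩
    · rintro (⟨m, rfl⟩ | ⟨h3, h4⟩)
      · exact ⟨h1 m, by simp, not_sumDec_singleton m⟩
      · exact ⟨h3, skewDec_ne_nil h4, fun h5 => not_both h5 h4⟩
  rw [h2, gf_or, gf_single]
  rintro l ⟨m, rfl⟩ ⟨-, h4⟩
  exact not_skewDec_singleton m h4

theorem gf_tri {P : List ℕ → Prop} (h0 : P []) (h1 : ∀ m, P [m]) (ht : ∀ l, P l → Tri l) :
    gf P = 1 + PowerSeries.X + gf (fun l => P l ∧ SumDec l) + gf (fun l => P l ∧ SkewDec l) := by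
  have h2 : gf (fun l => P l ∧ l ≠ []) =
      gf (fun l => (P l ∧ SumDec l) ∨ (P l ∧ l ≠ [] ∧ ¬ SumDec l)) := by
    refine gf_congr fun l => ?_
    constructor
    · rintro ⟨h3, h4⟩
      by_cases h5 : SumDec l
      · exact Or.inl ⟨h3, h5⟩
      · exact Or.inr ⟨h3, h4, h5⟩
    · rintro (⟨h3, h4⟩ | ⟨h3, h4, h5⟩)
      · exact ⟨h3, sumDec_ne_nil h4⟩
      · exact ⟨h3, h4⟩
  rw [gf_ne_nil h0, gf_or (fun l h3 h4 => h4.2.2 h3.2), gf_indec h1 ht] at h2
  linear_combination h2

/-! ### The equations -/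

theorem eq_A : gf A = 1 + gf A * (PowerSeries.X * gf A) := by
  have hP1 : gf P1 = PowerSeries.X * gf A := by
    unfold P1
    rw [gf_minus mapInv_single, gf_single]
    rintro l1 l2 r1 r2 h _ _ ⟨m, rfl⟩ _ ⟨m', rfl⟩ _
    simp only [List.cons_append, List.nil_append, List.cons.injEq] at h
    rw [h.1]
  have h1 : gf A = gf (fun l => l = [] ∨ Plus A P1 l) := gf_congr A_iff
  conv_lhs => rw [h1]
  rw [gf_or, gf_nil, gf_plus, hP1]
  · exact mapInv_minus mapInv_single mapInv_A
  · intro l1 l2 r1 r2 h hl hr _ h2 _ h3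
    exact P1_unique h hl hr h2 h3
  · rintro _ rfl ⟨l1, l2, h, -, -, l3, l4, h3, h4, ⟨m, rfl⟩, -⟩
    have := (List.append_eq_nil_iff.1 h.symm).2
    rw [h3] at this
    simp at this

theorem eq_D : gf D = gf A := by
  rw [← gf_reverse D]
  exact gf_congr fun l => D_reverse

theorem eq_Dec : gf Dec = 1 + gf Dec * PowerSeries.X := by
  have h1 : gf Dec = gf (fun l => l = [] ∨ Minus Dec Single l) := gf_congr Dec_iff
  conv_lhs => rw [h1]
  rw [gf_or, gf_nil, gf_minus mapInv_dec, gf_single]
  · rintro l1 l2 r1 r2 h _ _ _ ⟨m, rfl⟩ _ ⟨m', rfl⟩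
    exact (List.append_inj' h rfl).1
  · rintro _ rfl ⟨l1, l2, h, -, -, m, rfl⟩
    have := (List.append_eq_nil_iff.1 h.symm).2
    simp at this

theorem unique_single {P : List ℕ → Prop} : ∀ l1 l2 r1 r2 : List ℕ, l1 ++ l2 = r1 ++ r2 → Lt l2 l1 → Lt r2 r1 →
    P l1 → Single l2 → P r1 → Single r2 → l1 = r1 := by
  rintro l1 l2 r1 r2 h _ _ _ ⟨m, rfl⟩ _ ⟨m', rfl⟩
  exact (List.append_inj' h rfl).1

theorem unique_sumDec {P R : List ℕ → Prop} : ∀ l1 l2 r1 r2 : List ℕ, l1 ++ l2 = r1 ++ r2 → Lt l2 l1 → Lt r2 r1 →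
    P l1 → (R l2 ∧ SumDec l2) → P r1 → (R r2 ∧ SumDec r2) → l1 = r1 := by
  rintro l1 l2 r1 r2 h hl hr _ h2 _ h3
  exact last_unique h (sumDec_ne_nil h2.2) hl (sumDec_ne_nil h3.2) hr (fun h4 => not_both h2.2 h4)
    (fun h4 => not_both h3.2 h4)

theorem disj_minus {P Q R : List ℕ → Prop} (l : List ℕ) (h1 : Minus P Single l)
    (h2 : Minus Q (fun l => R l ∧ SumDec l) l) : False := by
  obtain ⟨l1, l2, rfl, h3, -, m, rfl⟩ := h1
  obtain ⟨r1, r2, h4, h5, -, -, h6⟩ := h2
  have h7 := last_unique h4 (by simp) h3 (sumDec_ne_nil h6) h5 (not_skewDec_singleton m) (fun h => not_both h6 h)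
  subst h7
  have := List.append_cancel_left h4
  rw [← this] at h6
  exact not_sumDec_singleton m h6

theorem eq_T : gf T = 1 + PowerSeries.X + gf (fun l => T l ∧ SumDec l) + gf (fun l => T l ∧ SkewDec l) :=
  gf_tri T_nil (fun m => (A_singleton m).T) (fun _ h => h.tri)

theorem eq_TS : gf (fun l => T l ∧ SumDec l) =
    (PowerSeries.X + gf (fun l => T l ∧ SkewDec l)) * (gf A - 1) := by
  rw [gf_congr TS_iff, gf_plus (mapInv_A.and mapInv_ne_nil), gf_indec (fun m => (A_singleton m).T) (fun _ h => h.tri),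
    gf_ne_nil A_nil]
  rintro l1 l2 r1 r2 h hl hr h2 _ h3 _
  exact first_unique h h2.2.1 hl h3.2.1 hr h2.2.2 h3.2.2

theorem eq_TK : gf (fun l => T l ∧ SkewDec l) =
    (gf T - 1) * PowerSeries.X + (gf Dec - 1) * gf (fun l => T l ∧ SumDec l) := by
  rw [gf_congr TK_iff, gf_or disj_minus, gf_minus (mapInv_T.and mapInv_ne_nil) unique_single, gf_single,
    gf_ne_nil T_nil, gf_minus (mapInv_dec.and mapInv_ne_nil) unique_sumDec, gf_ne_nil dec_nil]

theorem eq_C : gf C = 1 + PowerSeries.X + gf (fun l => C l ∧ SumDec l) + gf (fun l => C l ∧ SkewDec l) :=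
  gf_tri C_nil (fun m => (A_singleton m).C) (fun _ h => h.tri)

theorem eq_CK : gf (fun l => C l ∧ SkewDec l) =
    (gf C - 1) * PowerSeries.X + (gf A - 1) * gf (fun l => C l ∧ SumDec l) := by
  rw [gf_congr CK_iff, gf_or disj_minus, gf_minus (mapInv_C.and mapInv_ne_nil) unique_single, gf_single,
    gf_ne_nil C_nil, gf_minus (mapInv_D.and mapInv_ne_nil) unique_sumDec, gf_ne_nil D_nil, eq_D]

theorem eq_CS : gf (fun l => C l ∧ SumDec l) =
    (PowerSeries.X + gf (fun l => C l ∧ SkewDec l) - (gf Dec - 1)) * (gf A - 1) + (gf Dec - 1) * (gf T - 1) := by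
  have h1 : gf (fun l => (C l ∧ l ≠ [] ∧ ¬ SumDec l) ∧ ¬ Dec l) =
      PowerSeries.X + gf (fun l => C l ∧ SkewDec l) - (gf Dec - 1) := by
    rw [← gf_indec (P := C) (fun m => (A_singleton m).C) (fun _ h => h.tri), ← gf_ne_nil dec_nil]
    have h2 : gf (fun l => C l ∧ l ≠ [] ∧ ¬ SumDec l) =
        gf (fun l => ((C l ∧ l ≠ [] ∧ ¬ SumDec l) ∧ ¬ Dec l) ∨ (Dec l ∧ l ≠ [])) := by
      refine gf_congr fun l => ?_
      constructor
      · intro h
        by_cases hd : Dec l
        · exact Or.inr ⟨hd, h.2.1⟩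
        · exact Or.inl ⟨h, hd⟩
      · rintro (h | ⟨h, h'⟩)
        · exact h.1
        · exact ⟨h.C, h', h.not_sumDec⟩
    rw [h2, gf_or (fun l h3 h4 => h3.2 h4.1)]
    ring
  rw [gf_congr CS_iff, gf_or, gf_plus (mapInv_A.and mapInv_ne_nil), h1, gf_ne_nil A_nil,
    gf_plus (mapInv_T.and mapInv_ne_nil), gf_ne_nil dec_nil, gf_ne_nil T_nil]
  · rintro l1 l2 r1 r2 h hl hr h2 _ h3 _
    exact first_unique h h2.2 hl h3.2 hr h2.1.not_sumDec h3.1.not_sumDec
  · rintro l1 l2 r1 r2 h hl hr h2 _ h3 _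
    exact first_unique h h2.1.2.1 hl h3.1.2.1 hr h2.1.2.2 h3.1.2.2
  · rintro l ⟨l1, l2, rfl, h3, h4, -⟩ ⟨r1, r2, h5, h6, h7, -⟩
    have h8 := first_unique h5 h4.1.2.1 h3 h7.2 h6 h4.1.2.2 h7.1.not_sumDec
    subst h8
    exact h4.2 h7.1

end Pool.Agent.Helper585RC
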