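import Pool.Agent.Helper585RC.Count

/-!
# The generating function is rational, and the translation to permutations of `Fin n`
-/

set_option autoImplicit false

namespace Pool.Agent.Helper585RC

open List

theorem gf_C : (1 - 6 * PowerSeries.X + 9 * PowerSeries.X ^ 2 - 5 * PowerSeries.X ^ 3 + PowerSeries.X ^ 4) * gf C =
    1 - 5 * PowerSeries.X + 5 * PowerSeries.X ^ 2 - 2 * PowerSeries.X ^ 3 := by
  have hA := eq_A
  have hDec := eq_Dec
  have hT := eq_T
  have hTS := eq_TS
  have hTK := eq_TK
  have hC := eq_C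
  have hCK := eq_CK
  have hCS := eq_CS
  generalize gf A = a at *
  generalize gf Dec = d at *
  generalize gf T = t at *
  generalize gf (fun l => T l ∧ SumDec l) = ts at *
  generalize gf (fun l => T l ∧ SkewDec l) = tk at *
  generalize gf C = f at *
  generalize gf (fun l => C l ∧ SumDec l) = cs at *
  generalize gf (fun l => C l ∧ SkewDec l) = ck at *
  generalize (PowerSeries.X : PowerSeries ℤ) = x at *
  have h1 : tk = (2 * x - x ^ 2) * (t - 1) - x ^ 2 := by
    linear_combination (1 - x) * hTK + ts * hDec - x * hT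
  have h2 : (t - 1) * (1 - (2 * x - x ^ 2) * a) = x * (1 - x) * a := by
    linear_combination hT + hTS + a * h1
  have h3 : a * cs = (1 - x) * (f - 1) - x := by
    linear_combination - hC - hCK
  have h4 : (1 - x) * cs = ((1 - x) * ck - x ^ 2) * (a - 1) + x * (t - 1) := by
    linear_combination (1 - x) * hCS + ((t - 1) - (a - 1)) * hDec
  have h5 : ((1 - x) * (f - 1) - x) * (2 - x - a) = x * (t - 1) := by
    linear_combination h4 - (1 - x) * (a - 1) * hC - (1 - x) * h3
  have h6 : ((1 - x) * (f - 1) - x) * a * (1 - 5 * x + 4 * x ^ 2 - x ^ 3) = x ^ 2 * (1 - x) * a := by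
    linear_combination (1 - (2 * x - x ^ 2) * a) * h5 + x * h2 + (2 - x) * ((1 - x) * (f - 1) - x) * hA
  have h7 : ((1 - x) * (f - 1) - x) * (1 - 5 * x + 4 * x ^ 2 - x ^ 3) = x ^ 2 * (1 - x) := by
    linear_combination (1 - x * a) * h6 -
      (((1 - x) * (f - 1) - x) * (1 - 5 * x + 4 * x ^ 2 - x ^ 3) - x ^ 2 * (1 - x)) * hA
  linear_combination h7

/-! ### Permutations of `Fin n` -/

/-- one-line form, with entries `0, …, n - 1` -/
def toL {n : ℕ} (π : Equiv.Perm (Fin n)) : List ℕ := List.ofFn fun i => (π i : ℕ)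

theorem toL_length {n : ℕ} (π : Equiv.Perm (Fin n)) : (toL π).length = n := List.length_ofFn

theorem toL_nodup {n : ℕ} (π : Equiv.Perm (Fin n)) : (toL π).Nodup :=
  List.nodup_ofFn.2 fun _ _ h => π.injective (Fin.ext h)

theorem toL_perm {n : ℕ} (π : Equiv.Perm (Fin n)) : (toL π).Perm (List.range n) := by
  refine (List.perm_ext_iff_of_nodup (toL_nodup π) List.nodup_range).2 fun x => ?_
  rw [toL, List.mem_ofFn, List.mem_range]
  constructor
  · rintro ⟨i, rfl⟩; exact (π i).2
  · intro hx
    exact ⟨π.symm ⟨x, hx⟩, by simp⟩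

theorem toL_injective {n : ℕ} : Function.Injective (toL (n := n)) := by
  intro π σ h
  ext i
  exact congrFun (List.ofFn_injective h) i

theorem exists_toL {n : ℕ} {l : List ℕ} (h : l.Perm (List.range n)) : ∃ π : Equiv.Perm (Fin n), toL π = l := by
  have hlen : l.length = n := by rw [h.length_eq, List.length_range]
  subst hlen
  have hlt : ∀ i : Fin l.length, l.get i < l.length := by
    intro i
    have := h.mem_iff.1 (List.get_mem l i)
    rwa [List.mem_range] at this
  have hnd : l.Nodup := h.nodup_iff.2 List.nodup_range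
  let f : Fin l.length → Fin l.length := fun i => ⟨l.get i, hlt i⟩
  have hf : Function.Injective f := by
    intro i j hij
    have : l.get i = l.get j := congrArg Fin.val hij
    exact List.nodup_iff_injective_get.1 hnd this
  refine ⟨Equiv.ofBijective f (Finite.injective_iff_bijective.1 hf), ?_⟩
  unfold toL
  simp only [Equiv.ofBijective_apply]
  exact List.ofFn_get l

theorem sub_of_embedding {n k : ℕ} (π : Equiv.Perm (Fin n)) (f : Fin k ↪o Fin n) :
    (List.ofFn fun i => (π (f i) : ℕ)) <+ toL π := by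
  rw [List.sublist_iff_exists_fin_orderEmbedding_get_eq]
  have h1 : (List.ofFn fun i => (π (f i) : ℕ)).length = k := List.length_ofFn
  have h2 : (toL π).length = n := toL_length π
  refine ⟨((Fin.castOrderIso h1).toOrderEmbedding.trans f).trans (Fin.castOrderIso h2.symm).toOrderEmbedding, ?_⟩
  intro i
  unfold toL
  simp [List.getElem_ofFn]
  rfl

theorem embedding_of_sub {n : ℕ} (π : Equiv.Perm (Fin n)) {s : List ℕ} (h : s <+ toL π) :
    ∃ f : Fin s.length ↪o Fin n, ∀ i, s.get i = (π (f i) : ℕ) := by
  obtain ⟨f, hf⟩ := List.sublist_iff_exists_fin_orderEmbedding_get_eq.1 h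
  refine ⟨f.trans (Fin.castOrderIso (toL_length π)).toOrderEmbedding, fun i => ?_⟩
  rw [hf i]
  unfold toL
  simp [List.getElem_ofFn]
  rfl

end Pool.Agent.Helper585RC
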