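import Pool.Agent.Helper585RC.Basic

/-!
# The structure of the class
-/

set_option autoImplicit false

namespace Pool.Agent.Helper585RC

open List

/-- sum-decomposable lists -/
def SumDec (l : List ℕ) : Prop := ∃ l1 l2, l = l1 ++ l2 ∧ l1 ≠ [] ∧ l2 ≠ [] ∧ Lt l1 l2

/-- skew-decomposable lists -/
def SkewDec (l : List ℕ) : Prop := ∃ l1 l2, l = l1 ++ l2 ∧ l1 ≠ [] ∧ l2 ≠ [] ∧ Lt l2 l1

theorem not_both {l : List ℕ} (h1 : SumDec l) (h2 : SkewDec l) : False := by
  obtain ⟨l1, l2, rfl, h3, h4, h5⟩ := h1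
  obtain ⟨r1, r2, h6, h7, h8, h9⟩ := h2
  obtain ⟨a, l1', rfl⟩ := List.exists_cons_of_ne_nil h3
  obtain ⟨a', r1', rfl⟩ := List.exists_cons_of_ne_nil h7
  have ha : a = a' := by
    simp only [List.cons_append, List.cons.injEq] at h6
    exact h6.1
  obtain ⟨l2', b, rfl⟩ := (List.eq_nil_or_concat l2).resolve_left h4
  obtain ⟨r2', b', rfl⟩ := (List.eq_nil_or_concat r2).resolve_left h8
  simp only [List.concat_eq_append] at h4 h5 h6 h8 h9
  have hb : b = b' := by
    rw [← List.append_assoc, ← List.append_assoc] at h6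
    have := (List.append_inj' h6 rfl).2
    simpa using this
  have h10 := h5 a (by simp) b (by simp)
  have h11 := h9 b' (by simp) a' (by simp)
  omega

theorem not_both' {l1 l2 r1 r2 : List ℕ} (h : l1 ++ l2 = r1 ++ r2) (hl1 : l1 ≠ []) (hl2 : l2 ≠ []) (hl : Lt l1 l2)
    (hr1 : r1 ≠ []) (hr2 : r2 ≠ []) (hr : Lt r2 r1) : False :=
  not_both (l := l1 ++ l2) ⟨l1, l2, rfl, hl1, hl2, hl⟩ ⟨r1, r2, h, hr1, hr2, hr⟩

theorem first_unique {l1 l2 r1 r2 : List ℕ} (h : l1 ++ l2 = r1 ++ r2) (hl1 : l1 ≠ []) (hl : Lt l1 l2)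
    (hr1 : r1 ≠ []) (hr : Lt r1 r2) (hls : ¬ SumDec l1) (hrs : ¬ SumDec r1) : l1 = r1 := by
  rcases List.append_eq_append_iff.1 h with ⟨a, h1, h2⟩ | ⟨a, h1, h2⟩
  · rcases eq_or_ne a [] with rfl | ha
    · simpa using h1.symm
    · exact absurd ⟨l1, a, h1, hl1, ha, hl.mono (by simp) (by rw [h2]; simp)⟩ hrs
  · rcases eq_or_ne a [] with rfl | ha
    · simpa using h1
    · exact absurd ⟨r1, a, h1, hr1, ha, hr.mono (by simp) (by rw [h2]; simp)⟩ hls

theorem last_unique {l1 l2 r1 r2 : List ℕ} (h : l1 ++ l2 = r1 ++ r2) (hl2 : l2 ≠ []) (hl : Lt l2 l1)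
    (hr2 : r2 ≠ []) (hr : Lt r2 r1) (hls : ¬ SkewDec l2) (hrs : ¬ SkewDec r2) : l1 = r1 := by
  rcases List.append_eq_append_iff.1 h with ⟨a, h1, h2⟩ | ⟨a, h1, h2⟩
  · rcases eq_or_ne a [] with rfl | ha
    · simpa using h1.symm
    · exact absurd ⟨a, r2, h2, ha, hr2, hr.mono (by simp) (by rw [h1]; simp)⟩ hls
  · rcases eq_or_ne a [] with rfl | ha
    · simpa using h1
    · exact absurd ⟨a, l2, h2, ha, hl2, hl.mono (by simp) (by rw [h1]; simp)⟩ hrs

theorem first_exists {l : List ℕ} (h : SumDec l) :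
    ∃ l1 l2, l = l1 ++ l2 ∧ Lt l1 l2 ∧ l1 ≠ [] ∧ l2 ≠ [] ∧ ¬ SumDec l1 := by
  obtain ⟨a1, a2, rfl, h1, h2, h3⟩ := h
  induction hn : a1.length using Nat.strong_induction_on generalizing a1 a2 with
  | _ n ih =>
    by_cases hs : SumDec a1
    · obtain ⟨b1, b2, rfl, h4, h5, h6⟩ := hs
      have hlen : b1.length < n := by
        rw [← hn, List.length_append]
        have : 0 < b2.length := List.length_pos_of_ne_nil h5
        omega
      obtain ⟨c1, c2, h7, h8⟩ := ih b1.length hlen b1 (b2 ++ a2) h4 (by simp [h5])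
        (lt_append_right.2 ⟨h6, (lt_append_left.1 h3).1⟩) rfl
      exact ⟨c1, c2, by rw [← h7, List.append_assoc], h8⟩
    · exact ⟨a1, a2, rfl, h3, h1, h2, hs⟩

theorem last_exists {l : List ℕ} (h : SkewDec l) :
    ∃ l1 l2, l = l1 ++ l2 ∧ Lt l2 l1 ∧ l1 ≠ [] ∧ l2 ≠ [] ∧ ¬ SkewDec l2 := by
  obtain ⟨a1, a2, rfl, h1, h2, h3⟩ := h
  induction hn : a2.length using Nat.strong_induction_on generalizing a1 a2 with
  | _ n ih =>
    by_cases hs : SkewDec a2
    · obtain ⟨b1, b2, rfl, h4, h5, h6⟩ := hs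
      have hlen : b2.length < n := by
        rw [← hn, List.length_append]
        have : 0 < b1.length := List.length_pos_of_ne_nil h4
        omega
      obtain ⟨c1, c2, h7, h8⟩ := ih b2.length hlen (a1 ++ b1) b2 (by simp [h1]) h5
        (lt_append_right.2 ⟨(lt_append_left.1 h3).2, h6⟩) rfl
      exact ⟨c1, c2, by rw [← h7, List.append_assoc], h8⟩
    · exact ⟨a1, a2, rfl, h3, h1, h2, hs⟩

theorem sumDec_ne_nil {l : List ℕ} (h : SumDec l) : l ≠ [] := by
  obtain ⟨l1, l2, rfl, h1, h2, h3⟩ := h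
  simp [h1]

theorem skewDec_ne_nil {l : List ℕ} (h : SkewDec l) : l ≠ [] := by
  obtain ⟨l1, l2, rfl, h1, h2, h3⟩ := h
  simp [h1]

theorem length_of_two {l1 l2 : List ℕ} {m : ℕ} (h : l1 ++ l2 = [m]) (h1 : l1 ≠ []) (h2 : l2 ≠ []) : False := by
  have h3 := congrArg List.length h
  rw [List.length_append, List.length_singleton] at h3
  have h4 := List.length_pos_of_ne_nil h1
  have h5 := List.length_pos_of_ne_nil h2
  omega

theorem not_sumDec_singleton (m : ℕ) : ¬ SumDec [m] := by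
  rintro ⟨l1, l2, h, h1, h2, h3⟩
  exact length_of_two h.symm h1 h2

theorem not_skewDec_singleton (m : ℕ) : ¬ SkewDec [m] := by
  rintro ⟨l1, l2, h, h1, h2, h3⟩
  exact length_of_two h.symm h1 h2

theorem Dec.not_sumDec {l : List ℕ} (h : Dec l) : ¬ SumDec l := by
  rintro ⟨l1, l2, rfl, h1, h2, h3⟩
  obtain ⟨a, ha⟩ := List.exists_mem_of_ne_nil l1 h1
  obtain ⟨b, hb⟩ := List.exists_mem_of_ne_nil l2 h2
  have h4 := (dec_append.1 h).2.2 b hb a ha
  have h5 := h3 a ha b hb
  omega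

/-- the trichotomy -/
def Tri (l : List ℕ) : Prop := l = [] ∨ (∃ m, l = [m]) ∨ SumDec l ∨ SkewDec l

theorem tri_append_lt {l r : List ℕ} (hl : Tri l) (hr : Tri r) (h : Lt l r) : Tri (l ++ r) := by
  rcases eq_or_ne l [] with rfl | h1
  · simpa using hr
  · rcases eq_or_ne r [] with rfl | h2
    · simpa using hl
    · exact Or.inr (Or.inr (Or.inl ⟨l, r, rfl, h1, h2, h⟩))

theorem tri_append_gt {l r : List ℕ} (hl : Tri l) (hr : Tri r) (h : Lt r l) : Tri (l ++ r) := by
  rcases eq_or_ne l [] with rfl | h1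
  · simpa using hr
  · rcases eq_or_ne r [] with rfl | h2
    · simpa using hl
    · exact Or.inr (Or.inr (Or.inr ⟨l, r, rfl, h1, h2, h⟩))

theorem tri_singleton (m : ℕ) : Tri [m] := Or.inr (Or.inl ⟨m, rfl⟩)

theorem A.tri {l : List ℕ} (h : A l) : Tri l := by
  induction hn : l.length using Nat.strong_induction_on generalizing l with
  | _ n ih =>
    rcases eq_or_ne l [] with rfl | hl
    · exact Or.inl rfl
    · obtain ⟨l1, m, r, rfl, h1, h2, h3, h4⟩ := A_decomp h hl
      have e1 : l1.length < n := by rw [← hn]; simp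
      have e2 : r.length < n := by rw [← hn]; simp; omega
      refine tri_append_lt (ih _ e1 h3 rfl) ?_ h1
      have : Tri ([m] ++ r) := tri_append_gt (tri_singleton m) (ih _ e2 h4 rfl) (by
        intro a ha b hb
        rw [List.mem_singleton] at hb
        rw [hb]; exact h2 a ha)
      exact this

theorem Tri.reverse {l : List ℕ} (h : Tri l) : Tri l.reverse := by
  rcases h with rfl | ⟨m, rfl⟩ | ⟨l1, l2, rfl, h1, h2, h3⟩ | ⟨l1, l2, rfl, h1, h2, h3⟩
  · exact Or.inl rfl
  · exact tri_singleton m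
  · right; right; right
    refine ⟨l2.reverse, l1.reverse, by simp, by simpa using h2, by simpa using h1, ?_⟩
    intro a ha b hb
    exact h3 a (by simpa using ha) b (by simpa using hb)
  · right; right; left
    refine ⟨l2.reverse, l1.reverse, by simp, by simpa using h2, by simpa using h1, ?_⟩
    intro a ha b hb
    exact h3 a (by simpa using ha) b (by simpa using hb)

theorem D.tri {l : List ℕ} (h : D l) : Tri l := by
  rw [← List.reverse_reverse l] at h
  have := (D_reverse.1 h).tri.reverse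
  rwa [List.reverse_reverse] at this

theorem Cl.tri {Q B : List ℕ → Prop} (hQ : ∀ l, Q l → Tri l) (hB : ∀ l, B l → Tri l) {l : List ℕ}
    (h : Cl Q B l) : Tri l := by
  induction h with
  | base h => exact hB _ h
  | plus _ hr hlt ih => exact tri_append_lt ih hr.tri hlt
  | minus hl _ hlt ih => exact tri_append_gt (hQ _ hl) ih hlt
  | last _ hlt ih => exact tri_append_gt ih (tri_singleton _) hlt

theorem T.tri {l : List ℕ} (h : T l) : Tri l := by
  refine Cl.tri (fun _ h => h.A.tri) ?_ h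
  rintro _ rfl
  exact Or.inl rfl

theorem C.tri {l : List ℕ} (h : C l) : Tri l := by
  refine Cl.tri (fun _ h => h.tri) ?_ h
  rintro _ ⟨d, t, rfl, hd, ht, hlt⟩
  exact tri_append_lt hd.A.tri ht.tri hlt

/-! ### Sums and skew sums in the classes -/

theorem T_sum {l α τ : List ℕ} (h : T l) (he : l = α ++ τ) (hα : α ≠ []) (hlt : Lt α τ) : A τ := by
  induction h generalizing α τ with
  | base h =>
    rw [h] at he
    exact absurd (List.append_eq_nil_iff.1 he.symm).1 hα
  | @plus l r hl hr hlr ih =>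
    rcases List.append_eq_append_iff.1 he with ⟨a, h1, h2⟩ | ⟨a, h1, h2⟩
    · exact hr.sub (by rw [h2]; exact List.sublist_append_right _ _)
    · rw [h2]
      refine A.plus (ih h1 hα (hlt.mono (by simp) (by rw [h2]; simp))) hr (hlr.mono (by rw [h1]; simp) (by simp))
  | @minus d r hd hr hlr ih =>
    rcases eq_or_ne τ [] with rfl | hτ
    · exact A_nil
    · rcases eq_or_ne d [] with rfl | hd'
      · exact ih he hα hlt
      · rcases eq_or_ne r [] with rfl | hr'
        · rw [List.append_nil] at he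
          exact hd.A.sub (by rw [he]; exact List.sublist_append_right _ _)
        · exact (not_both' he.symm hα hτ hlt hd' hr' hlr).elim
  | @last r m hr hlr ih =>
    rcases eq_or_ne τ [] with rfl | hτ
    · exact A_nil
    · rcases eq_or_ne r [] with rfl | hr'
      · exact (length_of_two he.symm hα hτ).elim
      · exact (not_both' he.symm hα hτ hlt hr' (by simp) hlr).elim

theorem last_aux {l : List ℕ} {m : ℕ} {ρ κ : List ℕ} (he : l ++ [m] = ρ ++ κ) (hlr : Lt [m] l) (hκ : κ ≠ [])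
    (hs : ¬ SkewDec κ) : ∃ m, κ = [m] := by
  rcases List.append_eq_append_iff.1 he with ⟨a, h1, h2⟩ | ⟨a, h1, h2⟩
  · rcases eq_or_ne a [] with rfl | ha
    · exact ⟨m, by simpa using h2.symm⟩
    · exact (length_of_two h2.symm ha hκ).elim
  · rcases eq_or_ne a [] with rfl | ha
    · exact ⟨m, by simpa using h2⟩
    · exact absurd ⟨a, [m], h2, ha, by simp, hlr.mono (by simp) (by rw [h1]; simp)⟩ hs

theorem T_skew {l ρ κ : List ℕ} (h : T l) (he : l = ρ ++ κ) (hρ : ρ ≠ []) (hκ : κ ≠ []) (hlt : Lt κ ρ)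
    (hs : ¬ SkewDec κ) : (∃ m, κ = [m]) ∨ Dec ρ := by
  induction h generalizing ρ κ with
  | base h =>
    rw [h] at he
    exact absurd (List.append_eq_nil_iff.1 he.symm).1 hρ
  | @plus l r hl hr hlr ih =>
    rcases eq_or_ne r [] with rfl | hr'
    · rw [List.append_nil] at he
      exact ih he hρ hκ hlt hs
    · rcases eq_or_ne l [] with rfl | hl'
      · rw [List.nil_append] at he
        right
        rw [he] at hr
        exact A_skew hr hlt hκ
      · exact (not_both' he hl' hr' hlr hρ hκ hlt).elim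
  | @minus d r hd hr hlr ih =>
    rcases List.append_eq_append_iff.1 he with ⟨a, h1, h2⟩ | ⟨a, h1, h2⟩
    · rcases eq_or_ne a [] with rfl | ha
      · right
        rw [List.append_nil] at h1
        rw [h1]; exact hd
      · rcases ih h2 ha hκ (hlt.mono (by simp) (by rw [h1]; simp)) hs with h3 | h3
        · exact Or.inl h3
        · right
          rw [h1]
          exact dec_append.2 ⟨hd, h3, hlr.mono (by rw [h2]; simp) (by simp)⟩
    · right
      exact hd.sub (by rw [h1]; exact List.sublist_append_left _ _)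
  | @last r m hr hlr ih => exact Or.inl (last_aux he hlr hκ hs)

theorem C_sum {l α τ : List ℕ} (h : C l) (he : l = α ++ τ) (hα : α ≠ []) (hτ : τ ≠ []) (hlt : Lt α τ)
    (hs : ¬ SumDec α) : A τ ∨ (Dec α ∧ T τ) := by
  induction h generalizing α τ with
  | base h =>
    obtain ⟨d, t, rfl, hd, ht, hdt⟩ := h
    rcases List.append_eq_append_iff.1 he with ⟨a, h1, h2⟩ | ⟨a, h1, h2⟩
    · rcases eq_or_ne d [] with rfl | hd'
      · rw [List.nil_append] at he
        exact Or.inl (T_sum ht he hα hlt)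
      · rcases eq_or_ne a [] with rfl | ha
        · right
          rw [List.append_nil] at h1
          rw [List.nil_append] at h2
          rw [h1, ← h2]; exact ⟨hd, ht⟩
        · exact absurd ⟨d, a, h1, hd', ha, hdt.mono (by simp) (by rw [h2]; simp)⟩ hs
    · rcases eq_or_ne a [] with rfl | ha
      · right
        rw [List.append_nil] at h1
        rw [List.nil_append] at h2
        rw [← h1, h2]; exact ⟨hd, ht⟩
      · have : SumDec d := ⟨α, a, h1, hα, ha, hlt.mono (by simp) (by rw [h2]; simp)⟩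
        exact absurd this hd.not_sumDec
  | @plus l r hl hr hlr ih =>
    rcases List.append_eq_append_iff.1 he with ⟨a, h1, h2⟩ | ⟨a, h1, h2⟩
    · exact Or.inl (hr.sub (by rw [h2]; exact List.sublist_append_right _ _))
    · rcases eq_or_ne a [] with rfl | ha
      · left
        rw [h2]; exact hr
      · have hr1 : Lt a r := hlr.mono (by rw [h1]; simp) (by simp)
        rcases ih h1 hα ha (hlt.mono (by simp) (by rw [h2]; simp)) hs with h3 | ⟨h3, h4⟩
        · left
          rw [h2]; exact h3.plus hr hr1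
        · right
          rw [h2]; exact ⟨h3, Cl.plus h4 hr hr1⟩
  | @minus d r hd hr hlr ih =>
    rcases eq_or_ne d [] with rfl | hd'
    · exact ih he hα hτ hlt hs
    · rcases eq_or_ne r [] with rfl | hr'
      · rw [List.append_nil] at he
        rw [he] at hd
        exact Or.inl (D_sum hd hlt hα)
      · exact (not_both' he.symm hα hτ hlt hd' hr' hlr).elim
  | @last r m hr hlr ih =>
    rcases eq_or_ne r [] with rfl | hr'
    · exact (length_of_two he.symm hα hτ).elim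
    · exact (not_both' he.symm hα hτ hlt hr' (by simp) hlr).elim

theorem C_skew {l ρ κ : List ℕ} (h : C l) (he : l = ρ ++ κ) (hρ : ρ ≠ []) (hκ : κ ≠ []) (hlt : Lt κ ρ)
    (hs : ¬ SkewDec κ) : (∃ m, κ = [m]) ∨ D ρ := by
  induction h generalizing ρ κ with
  | base h =>
    obtain ⟨d, t, rfl, hd, ht, hdt⟩ := h
    rcases eq_or_ne d [] with rfl | hd'
    · rw [List.nil_append] at he
      rcases T_skew ht he hρ hκ hlt hs with h1 | h1
      · exact Or.inl h1
      · exact Or.inr h1.D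
    · rcases eq_or_ne t [] with rfl | ht'
      · rw [List.append_nil] at he
        right
        exact (hd.sub (by rw [he]; exact List.sublist_append_left _ _)).D
      · exact (not_both' he hd' ht' hdt hρ hκ hlt).elim
  | @plus l r hl hr hlr ih =>
    rcases eq_or_ne r [] with rfl | hr'
    · rw [List.append_nil] at he
      exact ih he hρ hκ hlt hs
    · rcases eq_or_ne l [] with rfl | hl'
      · rw [List.nil_append] at he
        right
        rw [he] at hr
        exact (A_skew hr hlt hκ).D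
      · exact (not_both' he hl' hr' hlr hρ hκ hlt).elim
  | @minus d r hd hr hlr ih =>
    rcases List.append_eq_append_iff.1 he with ⟨a, h1, h2⟩ | ⟨a, h1, h2⟩
    · rcases eq_or_ne a [] with rfl | ha
      · right
        rw [List.append_nil] at h1
        rw [h1]; exact hd
      · rcases ih h2 ha hκ (hlt.mono (by simp) (by rw [h1]; simp)) hs with h3 | h3
        · exact Or.inl h3
        · right
          rw [h1]
          exact hd.minus h3 (hlr.mono (by rw [h2]; simp) (by simp))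
    · right
      exact hd.sub (by rw [h1]; exact List.sublist_append_left _ _)
  | @last r m hr hlr ih => exact Or.inl (last_aux he hlr hκ hs)

/-! ### Characterisations used for counting -/

/-- `l = l1 ++ l2` with `l1 < l2` -/
def Plus (P Q : List ℕ → Prop) (l : List ℕ) : Prop := ∃ l1 l2, l = l1 ++ l2 ∧ Lt l1 l2 ∧ P l1 ∧ Q l2

/-- `l = l1 ++ l2` with `l2 < l1` -/
def Minus (P Q : List ℕ → Prop) (l : List ℕ) : Prop := ∃ l1 l2, l = l1 ++ l2 ∧ Lt l2 l1 ∧ P l1 ∧ Q l2

/-- one-element lists -/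
def Single (l : List ℕ) : Prop := ∃ m, l = [m]

theorem TS_iff (l : List ℕ) : (T l ∧ SumDec l) ↔
    Plus (fun l => T l ∧ l ≠ [] ∧ ¬ SumDec l) (fun l => A l ∧ l ≠ []) l := by
  constructor
  · rintro ⟨h, hs⟩
    obtain ⟨l1, l2, rfl, h1, h2, h3, h4⟩ := first_exists hs
    exact ⟨l1, l2, rfl, h1, ⟨h.sub (List.sublist_append_left _ _), h2, h4⟩, T_sum h rfl h2 h1, h3⟩
  · rintro ⟨l1, l2, rfl, h1, ⟨h2, h3, h4⟩, h5, h6⟩
    exact ⟨Cl.plus h2 h5 h1, l1, l2, rfl, h3, h6, h1⟩

theorem TK_iff (l : List ℕ) : (T l ∧ SkewDec l) ↔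
    (Minus (fun l => T l ∧ l ≠ []) Single l ∨ Minus (fun l => Dec l ∧ l ≠ []) (fun l => T l ∧ SumDec l) l) := by
  constructor
  · rintro ⟨h, hs⟩
    obtain ⟨l1, l2, rfl, h1, h2, h3, h4⟩ := last_exists hs
    have ht1 := h.sub (List.sublist_append_left l1 l2)
    have ht2 := h.sub (List.sublist_append_right l1 l2)
    rcases ht2.tri with h5 | h5 | h5 | h5
    · exact absurd h5 h3
    · exact Or.inl ⟨l1, l2, rfl, h1, ⟨ht1, h2⟩, h5⟩
    · rcases T_skew h rfl h2 h3 h1 h4 with ⟨m, rfl⟩ | h6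
      · exact absurd h5 (not_sumDec_singleton m)
      · exact Or.inr ⟨l1, l2, rfl, h1, ⟨h6, h2⟩, ht2, h5⟩
    · exact absurd h5 h4
  · rintro (⟨l1, l2, rfl, h1, ⟨h2, h3⟩, m, rfl⟩ | ⟨l1, l2, rfl, h1, ⟨h2, h3⟩, h4, h5⟩)
    · exact ⟨Cl.last h2 h1, l1, [m], rfl, h3, by simp, h1⟩
    · exact ⟨Cl.minus h2 h4 h1, l1, l2, rfl, h3, sumDec_ne_nil h5, h1⟩

theorem CK_iff (l : List ℕ) : (C l ∧ SkewDec l) ↔
    (Minus (fun l => C l ∧ l ≠ []) Single l ∨ Minus (fun l => D l ∧ l ≠ []) (fun l => C l ∧ SumDec l) l) := by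
  constructor
  · rintro ⟨h, hs⟩
    obtain ⟨l1, l2, rfl, h1, h2, h3, h4⟩ := last_exists hs
    have ht1 := h.sub (List.sublist_append_left l1 l2)
    have ht2 := h.sub (List.sublist_append_right l1 l2)
    rcases ht2.tri with h5 | h5 | h5 | h5
    · exact absurd h5 h3
    · exact Or.inl ⟨l1, l2, rfl, h1, ⟨ht1, h2⟩, h5⟩
    · rcases C_skew h rfl h2 h3 h1 h4 with ⟨m, rfl⟩ | h6
      · exact absurd h5 (not_sumDec_singleton m)
      · exact Or.inr ⟨l1, l2, rfl, h1, ⟨h6, h2⟩, ht2, h5⟩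
    · exact absurd h5 h4
  · rintro (⟨l1, l2, rfl, h1, ⟨h2, h3⟩, m, rfl⟩ | ⟨l1, l2, rfl, h1, ⟨h2, h3⟩, h4, h5⟩)
    · exact ⟨Cl.last h2 h1, l1, [m], rfl, h3, by simp, h1⟩
    · exact ⟨Cl.minus h2 h4 h1, l1, l2, rfl, h3, sumDec_ne_nil h5, h1⟩

theorem CS_iff (l : List ℕ) : (C l ∧ SumDec l) ↔
    (Plus (fun l => (C l ∧ l ≠ [] ∧ ¬ SumDec l) ∧ ¬ Dec l) (fun l => A l ∧ l ≠ []) l ∨
      Plus (fun l => Dec l ∧ l ≠ []) (fun l => T l ∧ l ≠ []) l) := by
  constructor
  · rintro ⟨h, hs⟩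
    obtain ⟨l1, l2, rfl, h1, h2, h3, h4⟩ := first_exists hs
    have hc1 := h.sub (List.sublist_append_left l1 l2)
    rcases C_sum h rfl h2 h3 h1 h4 with h5 | ⟨h5, h6⟩
    · by_cases hd : Dec l1
      · exact Or.inr ⟨l1, l2, rfl, h1, ⟨hd, h2⟩, h5.T, h3⟩
      · exact Or.inl ⟨l1, l2, rfl, h1, ⟨⟨hc1, h2, h4⟩, hd⟩, h5, h3⟩
    · exact Or.inr ⟨l1, l2, rfl, h1, ⟨h5, h2⟩, h6, h3⟩
  · rintro (⟨l1, l2, rfl, h1, ⟨⟨h2, h3, h4⟩, h5⟩, h6, h7⟩ | ⟨l1, l2, rfl, h1, ⟨h2, h3⟩, h4, h5⟩)
    · exact ⟨Cl.plus h2 h6 h1, l1, l2, rfl, h3, h7, h1⟩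
    · exact ⟨Cl.base ⟨l1, l2, rfl, h2, h4, h1⟩, l1, l2, rfl, h3, h5, h1⟩

/-- lists of `A` which start with their largest entry -/
def P1 : List ℕ → Prop := Minus Single A

theorem A_iff (l : List ℕ) : A l ↔ (l = [] ∨ Plus A P1 l) := by
  constructor
  · intro h
    rcases eq_or_ne l [] with h0 | h0
    · exact Or.inl h0
    · obtain ⟨l1, m, r, rfl, h1, h2, h3, h4⟩ := A_decomp h h0
      refine Or.inr ⟨l1, m :: r, rfl, h1, h3, [m], r, rfl, ?_, ⟨m, rfl⟩, h4⟩
      intro a ha b hb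
      rw [List.mem_singleton] at hb
      rw [hb]; exact h2 a ha
  · rintro (rfl | ⟨l1, l2, rfl, h1, h2, l3, l4, rfl, h3, ⟨m, rfl⟩, h5⟩)
    · exact A_nil
    · exact h2.plus (A.minus (dec_singleton m) h5 h3) h1

theorem P1_unique {l1 l2 r1 r2 : List ℕ} (h : l1 ++ l2 = r1 ++ r2) (hl : Lt l1 l2) (hr : Lt r1 r2)
    (hl2 : P1 l2) (hr2 : P1 r2) : l1 = r1 := by
  obtain ⟨_, l2', rfl, hl3, ⟨m, rfl⟩, -⟩ := hl2
  obtain ⟨_, r2', rfl, hr3, ⟨m', rfl⟩, -⟩ := hr2
  rcases List.append_eq_append_iff.1 h with ⟨a, h1, h2⟩ | ⟨a, h1, h2⟩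
  · rcases eq_or_ne a [] with rfl | ha
    · simpa using h1.symm
    · obtain ⟨x, a', rfl⟩ := List.exists_cons_of_ne_nil ha
      simp only [List.cons_append, List.nil_append, List.cons.injEq] at h2
      obtain ⟨rfl, h2⟩ := h2
      have e1 := hr m (by rw [h1]; simp) m' (by simp)
      have e2 := hl3 m' (by rw [h2]; simp) m (by simp)
      omega
  · rcases eq_or_ne a [] with rfl | ha
    · simpa using h1
    · obtain ⟨x, a', rfl⟩ := List.exists_cons_of_ne_nil ha
      simp only [List.cons_append, List.nil_append, List.cons.injEq] at h2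
      obtain ⟨rfl, h2⟩ := h2
      have e1 := hl m' (by rw [h1]; simp) m (by simp)
      have e2 := hr3 m (by rw [h2]; simp) m' (by simp)
      omega

theorem Dec_iff (l : List ℕ) : Dec l ↔ (l = [] ∨ Minus Dec Single l) := by
  constructor
  · intro h
    rcases List.eq_nil_or_concat l with h0 | ⟨l1, m, rfl⟩
    · exact Or.inl h0
    · rw [List.concat_eq_append] at h ⊢
      have := dec_append.1 h
      exact Or.inr ⟨l1, [m], rfl, this.2.2, this.1, m, rfl⟩
  · rintro (rfl | ⟨l1, l2, rfl, h1, h2, m, rfl⟩)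
    · exact dec_nil
    · exact dec_append.2 ⟨h2, dec_singleton m, h1⟩

/-! ### Invariance -/

theorem mapInv_sumDec : MapInv SumDec := by
  rintro l f hf ⟨l1, l2, rfl, h1, h2, h3⟩
  exact ⟨l1.map f, l2.map f, List.map_append, by simpa using h1, by simpa using h2, hf.lt_map.2 h3⟩

theorem mapInv_skewDec : MapInv SkewDec := by
  rintro l f hf ⟨l1, l2, rfl, h1, h2, h3⟩
  refine ⟨l1.map f, l2.map f, List.map_append, by simpa using h1, by simpa using h2, ?_⟩
  refine Mono.lt_map (l := l2) (r := l1) (hf.mono ?_) |>.2 h3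
  intro a ha
  rcases List.mem_append.1 ha with h | h
  · exact List.mem_append_right _ h
  · exact List.mem_append_left _ h

theorem mapInv_ne_nil : MapInv (fun l => l ≠ []) := by
  intro l f _ h
  simpa using h

theorem mapInv_single : MapInv Single := by
  rintro l f _ ⟨m, rfl⟩
  exact ⟨f m, rfl⟩

theorem mapInv_minus {P Q : List ℕ → Prop} (hP : MapInv P) (hQ : MapInv Q) : MapInv (Minus P Q) := by
  rintro l f hf ⟨l1, l2, rfl, h1, h2, h3⟩
  refine ⟨l1.map f, l2.map f, List.map_append, ?_, hP _ _ (hf.mono (by simp)) h2, hQ _ _ (hf.mono (by simp)) h3⟩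
  refine Mono.lt_map (l := l2) (r := l1) (hf.mono ?_) |>.2 h1
  intro a ha
  rcases List.mem_append.1 ha with h | h
  · exact List.mem_append_right _ h
  · exact List.mem_append_left _ h

end Pool.Agent.Helper585RC
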